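import Pool.Agent.Lib.MP_544a1b_al.EN.Fin

/-! Engel groups whose two-generator subgroups are soluble and whose abelian subgroups have finite rank are
locally nilpotent. -/

set_option autoImplicit false

universe u

namespace Pool.Agent.Results.MP_544a1b_al.EngelGroups

open Pool.Agent.Lib.MP_544a1b_al

/-- Q1 for Engel groups: the hypotheses are those of Q1 and the Engel condition. Then each finitely generated subgroup of `G`
is nilpotent, the elements of finite order form a normal subgroup `T` and `G ⧸ T` is nilpotent. -/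
theorem result (G : Type u) [Group G]
    (hbin : ∀ x y : G, Group.IsSolvable (Subgroup.closure ({x, y} : Set G)))
    (hab : ∀ A : Subgroup G, (∀ a ∈ A, ∀ b ∈ A, a * b = b * a) →
      ∃ r : ℕ, ∀ H : Subgroup G, H ≤ A → H.FG →
        ∃ s : Finset G, s.card ≤ r ∧ Subgroup.closure (s : Set G) = H)
    (heng : ∀ x y : G, ∃ n, eng x y n = 1) :
    (∀ H : Subgroup G, H.FG → Group.IsNilpotent H) ∧
      ∃ (T : Subgroup G) (_ : T.Normal), (∀ g, g ∈ T ↔ IsOfFinOrder g) ∧
        Group.IsNilpotent (G ⧸ T) := by
  have hb : BN G := BN_of_engel heng hbin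
  obtain ⟨h1, h2⟩ := hb.main (fun A hA => hab A (fun a ha b hb => (hA a ha b hb).eq))
  refine ⟨?_, h2⟩
  rintro H ⟨s, rfl⟩
  exact h1 s

end Pool.Agent.Results.MP_544a1b_al.EngelGroups
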