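import Pool.Agent.Lib.MP_544a1b_al.Fin

/-! Binary soluble groups whose abelian subgroups have rank at most one are soluble. -/

set_option autoImplicit false

universe u

namespace Pool.Agent.Results.MP_544a1b_al.RankOneSoluble

open Pool.Agent.Lib.MP_544a1b_al

/-- The rank one case of Q1. A binary soluble group each of whose abelian subgroups has rank at
most one is soluble, of derived length at most seven. -/
theorem result (G : Type u) [Group G]
    (hbin : ∀ x y : G, Group.IsSolvable (Subgroup.closure ({x, y} : Set G)))
    (hab : ∀ A : Subgroup G, (∀ a ∈ A, ∀ b ∈ A, a * b = b * a) →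
      ∀ H : Subgroup G, H ≤ A → H.FG →
        ∃ s : Finset G, s.card ≤ 1 ∧ Subgroup.closure (s : Set G) = H) :
    derivedSeries G 7 = ⊥ :=
  (rc_of_rank_one hbin hab).dl_seven

end Pool.Agent.Results.MP_544a1b_al.RankOneSoluble
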